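import Pool.Agent.H31.SX.TargetsD
import Pool.Agent.H31.SX.TargetsR
import Pool.Agent.H26.THC.TR1

/-!
# Row CF: tools
-/

set_option autoImplicit false

open NumberField NumberField.InfinitePlace NumberField.Units
  NumberField.Units.dirichletUnitTheorem MeasureTheory Set Filter Complex
open scoped nonZeroDivisors ENNReal

namespace Pool.Agent.H97.SWX.CF

open Pool.Agent.H25.HK Pool.Agent.H23.LB Pool.Agent.H23.LC
open Pool.Agent.H28.RC (Rep ft idl)
open Pool.Agent.H29.TC (Gn LC cq dvs AC MC)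
open Pool.Agent.H26.THC Pool.Agent.H26.GLA
open Pool.Agent.H31.SX

/-- an element which acts injectively on an ideal of a finite ring acts as a unit -/
theorem unit_act {R : Type} [CommRing R] [Finite R] (I : Ideal R) (ν : R)
    (hν : ∀ τ ∈ I, ν * τ = 0 → τ = 0) : ∃ u : R, IsUnit u ∧ ∀ τ ∈ I, u * τ = ν * τ := by
  have hpow : ∀ n : ℕ, ∀ τ ∈ I, ν ^ n * τ = 0 → τ = 0 := by
    intro n
    induction n with
    | zero => intro τ _ h; rwa [pow_zero, one_mul] at h
    | succ n ih =>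
      intro τ hτ h
      apply hν τ hτ
      apply ih (ν * τ) (Ideal.mul_mem_left _ _ hτ)
      rw [← mul_assoc, ← pow_succ]
      exact h
  obtain ⟨a, b, hab, heq⟩ : ∃ a b : ℕ, a < b ∧ ν ^ a = ν ^ b := by
    obtain ⟨a, b, hne, h⟩ := Finite.exists_ne_map_eq_of_infinite (fun n : ℕ => ν ^ n)
    rcases lt_or_gt_of_ne hne with h1 | h1
    · exact ⟨a, b, h1, h⟩
    · exact ⟨b, a, h1, h.symm⟩
  obtain ⟨p, hp⟩ : ∃ p, b = a + (p + 1) := ⟨b - a - 1, by omega⟩
  subst hp
  have hper : ∀ k n : ℕ, a ≤ n → ν ^ (n + k * (p + 1)) = ν ^ n := by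
    intro k
    induction k with
    | zero => intro n _; simp
    | succ k ih =>
      intro n hn
      have h1 : n + (k + 1) * (p + 1) = (n + (p + 1)) + k * (p + 1) := by ring
      rw [h1, ih (n + (p + 1)) (by omega)]
      obtain ⟨m, rfl⟩ := Nat.exists_eq_add_of_le hn
      have h2 : a + m + (p + 1) = m + (a + (p + 1)) := by ring
      rw [h2, pow_add ν m, ← heq, ← pow_add]
      congr 1
      ring
  set N : ℕ := (a + 1) * (p + 1) with hN
  have hNa : a ≤ N := by rw [hN]; nlinarith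
  have hN1 : 1 ≤ N := by rw [hN]; nlinarith
  obtain ⟨N', hN'⟩ : ∃ N', N = N' + 1 := ⟨N - 1, by omega⟩
  have hidem : ν ^ N * ν ^ N = ν ^ N := by
    rw [← pow_add]
    exact hper (a + 1) N hNa
  set e : R := ν ^ N with he
  have he1 : ∀ τ ∈ I, e * τ = τ := by
    intro τ hτ
    have h1 : e * (e * τ - τ) = 0 := by
      linear_combination τ * hidem
    have h2 := hpow N (e * τ - τ) (sub_mem (Ideal.mul_mem_left _ _ hτ) hτ) h1
    linear_combination h2
  have hνe : ν * ν ^ N' = e := by rw [he, hN', pow_succ]; ring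
  clear_value e
  generalize ν ^ N' = w at hνe
  refine ⟨ν * e + (1 - e), ?_, ?_⟩
  · refine IsUnit.of_mul_eq_one (w * e + (1 - e)) ?_
    linear_combination e ^ 2 * hνe + (e + 2 - ν - w) * hidem
  · intro τ hτ
    have h1 := he1 τ hτ
    linear_combination (ν - 1) * h1

section

variable {K : Type} [Field K] [NumberField K]

theorem mem_inf_mul {I J : Ideal (𝓞 K)} {M : FI K} (hM : M ≠ 0) {x : K}
    (hI : x ∈ (I : FI K) * M) (hJ : x ∈ (J : FI K) * M) :
    x ∈ ((I ⊓ J : Ideal (𝓞 K)) : FI K) * M := by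
  have key : ∀ L : FI K, x ∈ L * M ↔ FractionalIdeal.spanSingleton (𝓞 K)⁰ x * M⁻¹ ≤ L := by
    intro L
    rw [← FractionalIdeal.spanSingleton_le_iff_mem]
    constructor
    · intro h
      calc FractionalIdeal.spanSingleton (𝓞 K)⁰ x * M⁻¹ ≤ (L * M) * M⁻¹ :=
            mul_le_mul_left h M⁻¹
        _ = L := by rw [mul_assoc, mul_inv_cancel₀ hM, mul_one]
    · intro h
      calc FractionalIdeal.spanSingleton (𝓞 K)⁰ x =
          (FractionalIdeal.spanSingleton (𝓞 K)⁰ x * M⁻¹) * M := by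
            rw [mul_assoc, inv_mul_cancel₀ hM, mul_one]
        _ ≤ L * M := mul_le_mul_left h M
  rw [key, FractionalIdeal.coeIdeal_inf]
  exact le_inf ((key _).mp hI) ((key _).mp hJ)

theorem inf_eq {l r k : Ideal (𝓞 K)} (h1 : l ⊔ r = ⊤) (h2 : l ⊔ k = ⊤) :
    (l * r) ⊓ k = l * (r ⊓ k) := by
  have h3 : IsCoprime l r := Ideal.isCoprime_iff_sup_eq.mpr h1
  have h4 : IsCoprime l k := Ideal.isCoprime_iff_sup_eq.mpr h2
  have h5 : IsCoprime l (r ⊓ k) := by
    have h6 : IsCoprime l (r * k) := h3.mul_right h4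
    rw [Ideal.isCoprime_iff_sup_eq] at h6 ⊢
    refine top_le_iff.mp (h6 ▸ sup_le_sup_left Ideal.mul_le_inf l)
  rw [Ideal.mul_eq_inf_of_isCoprime h3, Ideal.mul_eq_inf_of_isCoprime h5, inf_assoc]

-- a nonzero element in a residue class
theorem exists_ne {k : Ideal (𝓞 K)} (hk : k ≠ ⊥) (a : 𝓞 K) : ∃ b : 𝓞 K, b ≠ 0 ∧ b - a ∈ k := by
  by_cases ha : a = 0
  · obtain ⟨z, hz, hz0⟩ := Submodule.exists_mem_ne_zero_of_ne_bot hk
    exact ⟨z, hz0, by rw [ha, sub_zero]; exact hz⟩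
  · exact ⟨a, ha, by rw [sub_self]; exact k.zero_mem⟩

theorem cmul (a b : 𝓞 K) : ((a * b : 𝓞 K) : K) = (a : K) * (b : K) :=
  map_mul (algebraMap (𝓞 K) K) _ _

theorem cadd (a b : 𝓞 K) : ((a + b : 𝓞 K) : K) = (a : K) + (b : K) :=
  map_add (algebraMap (𝓞 K) K) _ _

theorem csub (a b : 𝓞 K) : ((a - b : 𝓞 K) : K) = (a : K) - (b : K) :=
  map_sub (algebraMap (𝓞 K) K) _ _

theorem zero_mem_FI (L : FI K) : (0 : K) ∈ L := (L : Submodule (𝓞 K) K).zero_mem

/-- a unit multiple of a generator -/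
theorem gn_smul {k : Ideal (𝓞 K)} (hk : k ≠ ⊥) {Y : FI K} {y₁ : K} (h : Gn k Y y₁)
    {c : 𝓞 K} (hc0 : c ≠ 0) {c' : 𝓞 K} (hcc : c * c' - 1 ∈ k) : Gn k Y ((c : K) * y₁) where
  mem := smul_mem_FI Y c h.mem
  ne := by
    refine mul_ne_zero ?_ h.ne
    intro h0
    apply hc0
    exact_mod_cast (FaithfulSMul.algebraMap_injective (𝓞 K) K) (h0.trans (map_zero _).symm)
  gen y hy := by
    obtain ⟨a, -, ha⟩ := h.gen y hy
    obtain ⟨b, hb0, hb⟩ := exists_ne hk (a * c')
    refine ⟨b, hb0, ?_⟩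
    have h1 : a - b * c ∈ k := by
      have e : a - b * c = -(c * (b - a * c')) - a * (c * c' - 1) := by ring
      rw [e]
      exact sub_mem (neg_mem (Ideal.mul_mem_left _ _ hb)) (Ideal.mul_mem_left _ _ hcc)
    have h2 := (h.iff (a - b * c) k le_rfl).mpr h1
    have h3 : ((a - b * c : 𝓞 K) : K) = (a : K) - (b : K) * (c : K) := by
      rw [csub, cmul]
    have h4 : y - (b : K) * ((c : K) * y₁) = (y - (a : K) * y₁) +
        ((a - b * c : 𝓞 K) : K) * y₁ := by rw [h3]; ring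
    rw [h4]
    exact fadd K _ ha h2
  iff a j hj := by
    have h1 : (a : K) * ((c : K) * y₁) = ((a * c : 𝓞 K) : K) * y₁ := by
      rw [cmul]; ring
    rw [h1, h.iff (a * c) j hj]
    constructor
    · intro h2
      have e : a = (a * c) * c' - a * (c * c' - 1) := by ring
      rw [e]
      exact sub_mem (Ideal.mul_mem_right _ _ h2) (Ideal.mul_mem_left _ _ (hj hcc))
    · intro h2
      exact Ideal.mul_mem_right _ _ h2

end

end Pool.Agent.H97.SWX.CF
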