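import Pool.Agent.H97.SWX.CF0

/-!
# Row CF: the Fourier transform of a function on a residue class
-/

set_option autoImplicit false

open NumberField NumberField.InfinitePlace NumberField.Units
  NumberField.Units.dirichletUnitTheorem MeasureTheory Set Filter Complex
open scoped nonZeroDivisors ENNReal

namespace Pool.Agent.H97.SWX.CF

open Pool.Agent.H25.HK Pool.Agent.H23.LB Pool.Agent.H23.LC
open Pool.Agent.H28.RC (Rep ft idl)
open Pool.Agent.H29.TC (Gn LC cq dvs AC MC)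
open Pool.Agent.H26.THC Pool.Agent.H26.GLA
open Pool.Agent.H31.SX

section

variable {K : Type} [Field K] [NumberField K]

-- `t` lies in `l r M` and has the coordinate `τ` modulo `k`
private def Rel (l r k : Ideal (𝓞 K)) (M : FI K) (x₀ t : K) (τ : 𝓞 K ⧸ k) : Prop :=
  t ∈ ((l * r : Ideal (𝓞 K)) : FI K) * M ∧
    ∃ s : 𝓞 K, t - (s : K) * x₀ ∈ (k : FI K) * M ∧ Ideal.Quotient.mk k s = τ

private theorem smul_mem {I : Ideal (𝓞 K)} {M : FI K} {a : 𝓞 K} {x : K} (ha : a ∈ I)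
    (hx : x ∈ M) : (a : K) * x ∈ (I : FI K) * M :=
  FractionalIdeal.mul_mem_mul (FractionalIdeal.mem_coeIdeal_of_mem _ ha) hx

private theorem mul_le_self (I : Ideal (𝓞 K)) (M : FI K) : (I : FI K) * M ≤ M := by
  have h1 := mul_mono_FI (K := K) (I := I) (J := ⊤) le_top M
  have h2 : ((⊤ : Ideal (𝓞 K)) : FI K) = 1 := FractionalIdeal.coeIdeal_top _
  rw [h2, one_mul] at h1
  exact h1

private theorem rel_mem {l r k : Ideal (𝓞 K)} {M : FI K} {x₀ t : K} {τ : 𝓞 K ⧸ k}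
    (hx : Gn k M x₀) (h : Rel l r k M x₀ t τ) : τ ∈ r.map (Ideal.Quotient.mk k) := by
  obtain ⟨h1, s, hs, rfl⟩ := h
  have h2 : (s : K) * x₀ ∈ ((r ⊔ k : Ideal (𝓞 K)) : FI K) * M := by
    have e : (s : K) * x₀ = t - (t - (s : K) * x₀) := by ring
    rw [e]
    exact fsub K _ (mul_mono_FI (Ideal.mul_le_right.trans le_sup_left) M h1)
      (mul_mono_FI le_sup_right M hs)
  have h3 := (hx.iff s (r ⊔ k) le_sup_right).mp h2
  obtain ⟨s1, hs1, s2, hs2, rfl⟩ := Submodule.mem_sup.mp h3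
  have h4 : Ideal.Quotient.mk k (s1 + s2) = Ideal.Quotient.mk k s1 := by
    rw [Ideal.Quotient.eq]
    have e : s1 + s2 - s1 = s2 := by ring
    rw [e]
    exact hs2
  rw [h4]
  exact Ideal.mem_map_of_mem _ hs1

private theorem rel_exists {l r k : Ideal (𝓞 K)} {M : FI K} {x₀ : K} (hlk : l ⊔ k = ⊤)
    (hx : Gn k M x₀) (τ : 𝓞 K ⧸ k) (hτ : τ ∈ r.map (Ideal.Quotient.mk k)) :
    ∃ t, Rel l r k M x₀ t τ := by
  obtain ⟨s, hs, rfl⟩ := (Ideal.mem_map_iff_of_surjective _ Ideal.Quotient.mk_surjective).mp hτ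
  have h1 : (1 : 𝓞 K) ∈ l ⊔ k := by rw [hlk]; trivial
  obtain ⟨u, hu, v, hv, huv⟩ := Submodule.mem_sup.mp h1
  refine ⟨((u * s : 𝓞 K) : K) * x₀, smul_mem (Ideal.mul_mem_mul hu hs) hx.mem, s, ?_, rfl⟩
  have e : ((u * s : 𝓞 K) : K) * x₀ - (s : K) * x₀ = ((-(v * s) : 𝓞 K) : K) * x₀ := by
    rw [← sub_mul, ← csub]
    congr 2
    have : u = 1 - v := by rw [← huv]; ring
    rw [this]; ring
  rw [e]
  exact smul_mem (neg_mem (Ideal.mul_mem_right _ _ hv)) hx.mem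

private theorem rel_add {l r k : Ideal (𝓞 K)} {M : FI K} {x₀ t t' : K} {τ τ' : 𝓞 K ⧸ k}
    (h : Rel l r k M x₀ t τ) (h' : Rel l r k M x₀ t' τ') :
    Rel l r k M x₀ (t + t') (τ + τ') := by
  obtain ⟨h1, s, hs, rfl⟩ := h
  obtain ⟨h1', s', hs', rfl⟩ := h'
  refine ⟨fadd K _ h1 h1', s + s', ?_, map_add _ _ _⟩
  have e : t + t' - ((s + s' : 𝓞 K) : K) * x₀ = (t - (s : K) * x₀) + (t' - (s' : K) * x₀) := by
    rw [cadd]; ring
  rw [e]
  exact fadd K _ hs hs'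

private theorem rel_smul {l r k : Ideal (𝓞 K)} {M : FI K} {x₀ t : K} {τ : 𝓞 K ⧸ k}
    (b : 𝓞 K) (h : Rel l r k M x₀ t τ) :
    Rel l r k M x₀ ((b : K) * t) (Ideal.Quotient.mk k b * τ) := by
  obtain ⟨h1, s, hs, rfl⟩ := h
  refine ⟨smul_mem_FI _ b h1, b * s, ?_, map_mul _ _ _⟩
  have e : (b : K) * t - ((b * s : 𝓞 K) : K) * x₀ = (b : K) * (t - (s : K) * x₀) := by
    rw [cmul]; ring
  rw [e]
  exact smul_mem_FI _ b hs

private theorem rel_sub {l r k : Ideal (𝓞 K)} {M : FI K} (hM : M ≠ 0) {x₀ t t' : K}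
    {τ : 𝓞 K ⧸ k} (hlr : l ⊔ r = ⊤) (hlk : l ⊔ k = ⊤) (hx : Gn k M x₀)
    (h : Rel l r k M x₀ t τ) (h' : Rel l r k M x₀ t' τ) :
    t - t' ∈ ((l * (r ⊓ k) : Ideal (𝓞 K)) : FI K) * M := by
  obtain ⟨h1, s, hs, rfl⟩ := h
  obtain ⟨h1', s', hs', he⟩ := h'
  rw [← inf_eq hlr hlk]
  refine mem_inf_mul hM (fsub K _ h1 h1') ?_
  have e : t - t' = (t - (s : K) * x₀) - (t' - (s' : K) * x₀) - ((s' - s : 𝓞 K) : K) * x₀ := by
    rw [csub]; ring
  rw [e]
  exact fsub K _ (fsub K _ hs hs') (smul_mem (Ideal.Quotient.eq.mp he) hx.mem)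

private theorem rel_unique {l r k : Ideal (𝓞 K)} {M : FI K} {x₀ t t' : K} {τ τ' : 𝓞 K ⧸ k}
    (hx : Gn k M x₀) (h : Rel l r k M x₀ t τ) (h' : Rel l r k M x₀ t' τ')
    (htt : t - t' ∈ (k : FI K) * M) : τ = τ' := by
  obtain ⟨-, s, hs, rfl⟩ := h
  obtain ⟨-, s', hs', rfl⟩ := h'
  rw [Ideal.Quotient.eq, ← hx.iff (s - s') k le_rfl]
  have e : ((s - s' : 𝓞 K) : K) * x₀ = (t - t') - (t - (s : K) * x₀) + (t' - (s' : K) * x₀) := by
    rw [csub]; ring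
  rw [e]
  exact fadd K _ (fsub K _ htt hs) hs'

-- the pairing of `l r M` and `k Y`
private theorem eps_pair {l r k : Ideal (𝓞 K)} {M : FI K}
    (hL : ((l * (r ⊓ k) : Ideal (𝓞 K)) : FI K) * M ≠ 0) {t z : K}
    (ht : t ∈ ((l * r : Ideal (𝓞 K)) : FI K) * M)
    (hz : z ∈ (k : FI K) * du K (((l * (r ⊓ k) : Ideal (𝓞 K)) : FI K) * M)) :
    eps K (t * z) = 1 := by
  refine FractionalIdeal.mul_induction_on hz ?_ ?_
  · intro a ha y hy
    obtain ⟨a', ha', rfl⟩ := (FractionalIdeal.mem_coeIdeal _).mp ha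
    have e : t * (algebraMap (𝓞 K) K a' * y) = ((a' : K) * t) * y := by ring
    rw [e]
    refine eps_of_mem hL ?_ hy
    have h1 : (a' : K) * t ∈ (k : FI K) * (((l * r : Ideal (𝓞 K)) : FI K) * M) :=
      smul_mem ha' ht
    have h2 : (k : FI K) * (((l * r : Ideal (𝓞 K)) : FI K) * M) =
        ((k * (l * r) : Ideal (𝓞 K)) : FI K) * M := by
      rw [FractionalIdeal.coeIdeal_mul k (l * r), mul_assoc]
    rw [h2] at h1
    refine mul_mono_FI ?_ M h1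
    calc k * (l * r) = l * (r * k) := by ring
      _ ≤ l * (r ⊓ k) := Ideal.mul_mono_right Ideal.mul_le_inf
  · intro z z' h1 h2
    rw [mul_add, eps_add, h1, h2, one_mul]

private theorem mem_of_eps {L : FI K} (hL : L ≠ 0) {t : K}
    (h : ∀ y ∈ du K L, eps K (t * y) = 1) : t ∈ L := by
  obtain ⟨h0, h1, -, -, -⟩ := Pool.Agent.H63.HK.du K L hL
  rw [← h1]
  unfold du
  have h0' : FractionalIdeal.dual ℤ ℚ L ≠ 0 := h0
  rw [FractionalIdeal.mem_dual h0']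
  intro m hm
  obtain ⟨n, hn⟩ := (eps_one_iff _).mp (h m hm)
  refine ⟨n, ?_⟩
  rw [Algebra.traceForm_apply, hn]
  simp

end

theorem pf_CF (hRA : X_RA) (hGX : Pool.Agent.H29.TC.T_GX) : X_CF := by
  intro K _ _ l r k hl hr hk hlr hlk _ θ hθ M x₀ ρ hM hx hρ a₀ ha₀
  classical
  have hrk : r ⊓ k ≠ ⊥ := by
    intro h
    have h1 : r * k ≤ ⊥ := h ▸ Ideal.mul_le_inf
    exact mul_ne_zero hr hk (le_bot_iff.mp h1)
  have hj0 : l * (r ⊓ k) ≠ ⊥ := mul_ne_zero hl hrk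
  have hjk : l * (r ⊓ k) ≤ k := Ideal.mul_le_right.trans inf_le_right
  have hjlr : l * (r ⊓ k) ≤ l * r := Ideal.mul_mono_right inf_le_left
  have hL : ((l * (r ⊓ k) : Ideal (𝓞 K)) : FI K) * M ≠ 0 :=
    mul_ne_zero (FractionalIdeal.coeIdeal_ne_zero.mpr hj0) hM
  have hY0 : du K (((l * (r ⊓ k) : Ideal (𝓞 K)) : FI K) * M) ≠ 0 :=
    (Pool.Agent.H63.HK.du K _ hL).1
  obtain ⟨y₁, hy₁⟩ := hGX K k _ hk hY0
  have hac := hθ.ac
  have hTex : ∀ τ : 𝓞 K ⧸ k, ∃ t : K, τ ∈ r.map (Ideal.Quotient.mk k) →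
      Rel l r k M x₀ t τ := by
    intro τ
    by_cases h : τ ∈ r.map (Ideal.Quotient.mk k)
    · obtain ⟨t, ht⟩ := rel_exists (l := l) hlk hx τ h
      exact ⟨t, fun _ => ht⟩
    · exact ⟨0, fun h' => absurd h' h⟩
  choose T hT using hTex
  have hφ : ∀ t τ, Rel l r k M x₀ t τ →
      ∀ y ∈ du K (((l * (r ⊓ k) : Ideal (𝓞 K)) : FI K) * M), eps K (t * y) = eps K (T τ * y) := by
    intro t τ h y hy
    have h1 := rel_sub hM hlr hlk hx h (hT τ (rel_mem hx h))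
    have e : t * y = T τ * y + (t - T τ) * y := by ring
    rw [e, eps_add, eps_of_mem hL h1 hy, mul_one]
  obtain ⟨ν, hν⟩ := (hRA (𝓞 K ⧸ k) θ hθ (r.map (Ideal.Quotient.mk k))).1
    (fun τ => eps K (T τ * y₁)) (by
      intro τ hτ τ' hτ'
      have h1 := rel_add (hT τ hτ) (hT τ' hτ')
      rw [← hφ _ _ h1 y₁ hy₁.mem, add_mul, eps_add]) (fun τ _ => eps_norm _)
  have hν1 : ∀ t τ, Rel l r k M x₀ t τ → eps K (t * y₁) = θ (ν * τ) := by
    intro t τ h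
    rw [hφ t τ h y₁ hy₁.mem]
    exact hν τ (rel_mem hx h)
  have hinj : ∀ τ ∈ r.map (Ideal.Quotient.mk k), ν * τ = 0 → τ = 0 := by
    intro τ hτ h0
    have h1 := hT τ hτ
    have h2 : T τ ∈ ((l * (r ⊓ k) : Ideal (𝓞 K)) : FI K) * M := by
      refine mem_of_eps hL fun y hy => ?_
      obtain ⟨b, -, hb⟩ := hy₁.gen y hy
      have e : T τ * y = T τ * (y - (b : K) * y₁) + ((b : K) * T τ) * y₁ := by ring
      rw [e, eps_add, eps_pair hL h1.1 hb, one_mul, hν1 _ _ (rel_smul b h1)]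
      have e2 : ν * (Ideal.Quotient.mk k b * τ) = 0 := by
        rw [mul_left_comm, h0, mul_zero]
      rw [e2]
      exact hac.zero
    have h3 : Rel l r k M x₀ 0 0 := by
      refine ⟨zero_mem_FI _, 0, ?_, map_zero _⟩
      have e : (0 : K) - ((0 : 𝓞 K) : K) * x₀ = 0 := by
        have : ((0 : 𝓞 K) : K) = 0 := map_zero (algebraMap (𝓞 K) K)
        rw [this, zero_mul, sub_zero]
      rw [e]
      exact zero_mem_FI _
    refine rel_unique hx h1 h3 ?_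
    rw [sub_zero]
    exact mul_mono_FI hjk M h2
  obtain ⟨u, hu, huI⟩ := unit_act (r.map (Ideal.Quotient.mk k)) ν hinj
  obtain ⟨u', hu'⟩ : ∃ u' : 𝓞 K ⧸ k, u * u' = 1 := hu.exists_right_inv
  obtain ⟨c1, hc1⟩ := Ideal.Quotient.mk_surjective (-u')
  obtain ⟨c', hc'⟩ := Ideal.Quotient.mk_surjective (-u)
  obtain ⟨c0, hc0, hc01⟩ := exists_ne hk c1
  have hmk : Ideal.Quotient.mk k c0 = -u' := by
    rw [← hc1]
    exact Ideal.Quotient.eq.mpr hc01
  have hcc : c0 * c' - 1 ∈ k := by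
    rw [← Ideal.Quotient.eq, map_mul, hmk, hc', map_one]
    linear_combination hu'
  have hy₀ := gn_smul hk hy₁ hc0 hcc
  have hkey : ∀ t τ, Rel l r k M x₀ t τ → eps K (t * ((c0 : K) * y₁)) = θ (-τ) := by
    intro t τ h
    have e : t * ((c0 : K) * y₁) = ((c0 : K) * t) * y₁ := by ring
    rw [e, hν1 _ _ (rel_smul c0 h), hmk]
    congr 1
    have h1 := huI τ (rel_mem hx h)
    linear_combination u' * h1 - τ * hu'
  refine ⟨(c0 : K) * y₁, hy₀, ?_⟩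
  intro H c hc X hX b y hb
  have hyM : y ∈ du K (((l * (r ⊓ k) : Ideal (𝓞 K)) : FI K) * M) := by
    have e : y = (y - (b : K) * ((c0 : K) * y₁)) + (b : K) * ((c0 : K) * y₁) := by ring
    rw [e]
    exact fadd K _ (mul_le_self k _ hb) (smul_mem_FI _ b hy₀.mem)
  have hαex : ∀ x : K, ∃ a : 𝓞 K, x ∈ M → x - (a : K) * x₀ ∈ (k : FI K) * M := by
    intro x
    by_cases h : x ∈ M
    · obtain ⟨a, -, ha⟩ := hx.gen x h
      exact ⟨a, fun _ => ha⟩
    · exact ⟨0, fun h' => absurd h' h⟩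
  choose α hα using hαex
  have hrel : ∀ x ∈ M, x - ρ ∈ ((l * r : Ideal (𝓞 K)) : FI K) * M →
      Rel l r k M x₀ (x - ρ) (Ideal.Quotient.mk k (α x) - Ideal.Quotient.mk k a₀) := by
    intro x hxM h
    refine ⟨h, α x - a₀, ?_, map_sub _ _ _⟩
    have e : x - ρ - ((α x - a₀ : 𝓞 K) : K) * x₀ =
        (x - (α x : K) * x₀) - (ρ - (a₀ : K) * x₀) := by
      rw [csub]; ring
    rw [e]
    exact fsub K _ (hα x hxM) ha₀
  have hterm : ∀ t τ, Rel l r k M x₀ t τ → eps K (t * y) = θ (-(Ideal.Quotient.mk k b * τ)) := by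
    intro t τ h
    have e : t * y = t * (y - (b : K) * ((c0 : K) * y₁)) +
        ((b : K) * t) * ((c0 : K) * y₁) := by ring
    rw [e, eps_add, eps_pair hL h.1 hb, one_mul, hkey _ _ (rel_smul b h)]
  have hlhs : ft K X c y = ∑ x ∈ X with x - ρ ∈ ((l * r : Ideal (𝓞 K)) : FI K) * M,
      H (Ideal.Quotient.mk k (α x)) * eps K (x * y) := by
    unfold ft
    rw [Finset.sum_filter]
    refine Finset.sum_congr rfl fun x hxX => ?_
    have hxM := hX.1 x hxX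
    rw [hc (α x) x hxM (hα x hxM)]
    unfold ci
    by_cases h : x - ρ ∈ ((l * r : Ideal (𝓞 K)) : FI K) * M
    · rw [if_pos h, if_pos h, one_mul]
      rfl
    · rw [if_neg h, if_neg h, zero_mul, zero_mul]
  have hrhs : ca K ρ y * (∑ τ : 𝓞 K ⧸ k, if τ ∈ r.map (Ideal.Quotient.mk k) then
      H (Ideal.Quotient.mk k a₀ + τ) * θ (-(Ideal.Quotient.mk k b * τ)) else 0) =
      ∑ τ : 𝓞 K ⧸ k with τ ∈ r.map (Ideal.Quotient.mk k),
        eps K (ρ * y) * (H (Ideal.Quotient.mk k a₀ + τ) *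
          θ (-(Ideal.Quotient.mk k b * τ))) := by
    rw [← Finset.sum_filter, Finset.mul_sum]
    rfl
  rw [hlhs, hrhs]
  refine Finset.sum_bij (fun x _ => Ideal.Quotient.mk k (α x) - Ideal.Quotient.mk k a₀)
    ?_ ?_ ?_ ?_
  · intro x hxX
    rw [Finset.mem_filter] at hxX
    rw [Finset.mem_filter]
    exact ⟨Finset.mem_univ _, rel_mem hx (hrel x (hX.1 x hxX.1) hxX.2)⟩
  · intro x hxX x' hxX' h
    rw [Finset.mem_filter] at hxX hxX'
    have h1 := hrel x (hX.1 x hxX.1) hxX.2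
    have h2 := hrel x' (hX.1 x' hxX'.1) hxX'.2
    have h3 : Ideal.Quotient.mk k (α x) - Ideal.Quotient.mk k a₀ =
        Ideal.Quotient.mk k (α x') - Ideal.Quotient.mk k a₀ := h
    rw [← h3] at h2
    have h4 := rel_sub hM hlr hlk hx h1 h2
    have h5 : x - x' ∈ ((l * (r ⊓ k) : Ideal (𝓞 K)) : FI K) * M := by
      have e : x - x' = x - ρ - (x' - ρ) := by ring
      rw [e]
      exact h4
    obtain ⟨r0, _, huniq⟩ := hX.2 x (hX.1 x hxX.1)
    have e1 := huniq x ⟨hxX.1, by rw [sub_self]; exact zero_mem_FI _⟩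
    have e2 := huniq x' ⟨hxX'.1, h5⟩
    rw [e1, e2]
  · intro τ hτ
    rw [Finset.mem_filter] at hτ
    have h1 := hT τ hτ.2
    have h2 : ρ + T τ ∈ M := fadd K _ hρ (mul_le_self _ M h1.1)
    obtain ⟨x, ⟨hxX, hxr⟩, -⟩ := hX.2 _ h2
    have hxM := hX.1 x hxX
    have h3 : x - ρ ∈ ((l * r : Ideal (𝓞 K)) : FI K) * M := by
      have e : x - ρ = T τ - (ρ + T τ - x) := by ring
      rw [e]
      exact fsub K _ h1.1 (mul_mono_FI hjlr M hxr)
    refine ⟨x, ?_, ?_⟩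
    · rw [Finset.mem_filter]
      exact ⟨hxX, h3⟩
    · have h4 := hrel x hxM h3
      refine rel_unique hx h4 h1 ?_
      have e : x - ρ - T τ = -(ρ + T τ - x) := by ring
      rw [e]
      have h5 := mul_mono_FI hjk M hxr
      exact ((((k : FI K) * M : FI K)) : Submodule (𝓞 K) K).neg_mem h5
  · intro x hxX
    rw [Finset.mem_filter] at hxX
    have h1 := hrel x (hX.1 x hxX.1) hxX.2
    have e : x * y = ρ * y + (x - ρ) * y := by ring
    have e2 : Ideal.Quotient.mk k a₀ + (Ideal.Quotient.mk k (α x) - Ideal.Quotient.mk k a₀) =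
        Ideal.Quotient.mk k (α x) := by ring
    rw [e, eps_add, hterm _ _ h1, e2]
    ring

end Pool.Agent.H97.SWX.CF
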