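import Pool.Agent.H31.SX.TargetsR

/-!
# Row RH: the differences of the multiplicative character
-/

set_option autoImplicit false

namespace Pool.Agent.H97.SWX.RH

open Pool.Agent.H31.SX
open Pool.Agent.H29.TC (AC MC)

theorem pf_RH : X_RH := by
  intro R _ _ η J h i θ hη hJ h2 h3 hθ hlog a ha X
  have ha4 : a ^ 4 = 0 := by
    have h1 : a ^ 4 ∈ J ^ 4 := Ideal.pow_mem_pow ha 4
    rw [hJ, Ideal.mem_bot] at h1
    exact h1
  have hnil : IsNilpotent a := ⟨4, ha4⟩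
  refine ⟨fun hX => ?_, fun hX => ?_⟩
  · have hY : X * Ring.inverse X = 1 := Ring.mul_inverse_cancel X hX
    unfold hp
    set Y : R := Ring.inverse X
    have hu : IsUnit (X - a) := by
      rw [sub_eq_add_neg]
      exact Pool.Agent.H29.TC.unit_add_nil hX hnil.neg
    set j : R := 2 * (a * Y + a ^ 2 * Y ^ 2 + a ^ 3 * Y ^ 3) with hj
    have hjJ : j ∈ J := by
      have e : j = (2 * (Y + a * Y ^ 2 + a ^ 2 * Y ^ 3)) * a := by rw [hj]; ring
      rw [e]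
      exact Ideal.mul_mem_left _ _ ha
    have hmul : (X - a) * (1 + j) = X + a := by
      rw [hj]
      linear_combination (2 * a + 2 * a ^ 2 * Y + 2 * a ^ 3 * Y ^ 2) * hY - 2 * Y ^ 3 * ha4
    have h5 : η (X + a) * (starRingEnd ℂ) (η (X - a)) = η (1 + j) := by
      rw [← hmul, hη.mul]
      have h6 := hη.conj_mul hu
      linear_combination (η (1 + j)) * h6
    rw [h5, hlog j hjJ]
    congr 1
    unfold lg
    rw [hj]
    linear_combination (2 * a ^ 3 * Y ^ 3) * h3 -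
      (2 * (a ^ 2 * Y ^ 2 + 2 * a ^ 3 * Y ^ 3 + 3 * a ^ 4 * Y ^ 4 + 2 * a ^ 5 * Y ^ 5 +
        a ^ 6 * Y ^ 6)) * h2 +
      (-2 * (3 * Y ^ 4 + 2 * a * Y ^ 5 + a ^ 2 * Y ^ 6) +
        8 * i * (3 * Y ^ 4 + 6 * a * Y ^ 5 + 7 * a ^ 2 * Y ^ 6 + 6 * a ^ 3 * Y ^ 7 +
          3 * a ^ 4 * Y ^ 8 + a ^ 5 * Y ^ 9)) * ha4
  · apply hη.zero
    intro hu
    apply hX
    have h5 : X = (X + a) + (-a) := by ring
    rw [h5]
    exact Pool.Agent.H29.TC.unit_add_nil hu hnil.neg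

end Pool.Agent.H97.SWX.RH
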