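import Pool.Agent.H31.SX.TargetsD
import Pool.Agent.H26.THC.TR
import Pool.Agent.H29.THC.FG

/-!
# Row SH: the Fourier transform of the coefficients
-/

set_option autoImplicit false

open NumberField NumberField.InfinitePlace NumberField.Units
  NumberField.Units.dirichletUnitTheorem MeasureTheory Set Filter Complex
open scoped nonZeroDivisors ENNReal

namespace Pool.Agent.H97.SWX.SH

open Pool.Agent.H25.HK Pool.Agent.H23.LB Pool.Agent.H23.LC
open Pool.Agent.H28.RC (Rep ft idl)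
open Pool.Agent.H29.TC (Gn LC cq dvs AC MC)
open Pool.Agent.H26.THC Pool.Agent.H26.GLA
open Pool.Agent.H31.SX

theorem pf_SH : X_SH := by
  intro K _ _ l k hLK η hη M x₀ y₀ c X hM hx hy hc1 hc2 hX
  classical
  have hf : l * k ≠ ⊥ := mul_ne_zero hLK.l_ne hLK.k_ne
  have hfl : l * k ≤ l := Ideal.mul_le_left
  have hfk : l * k ≤ k := Ideal.mul_le_right
  have hcop : l ⊔ k = ⊤ := hLK.cop
  have hfin1 : Finite (𝓞 K ⧸ l) := Ideal.finiteQuotientOfFreeOfNeBot l hLK.l_ne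
  have hfin2 : Finite (𝓞 K ⧸ k) := Ideal.finiteQuotientOfFreeOfNeBot _ hLK.k_ne
  have hft1 : Fintype (𝓞 K ⧸ l) := Fintype.ofFinite _
  have hft2 : Fintype (𝓞 K ⧸ k) := Fintype.ofFinite _
  have hf0 : ((l * k : Ideal (𝓞 K)) : FI K) ≠ 0 := FractionalIdeal.coeIdeal_ne_zero.mpr hf
  have hL : ((l * k : Ideal (𝓞 K)) : FI K) * M ≠ 0 := mul_ne_zero hf0 hM
  -- lifts
  have hex : ∀ q : (𝓞 K ⧸ l) × (𝓞 K ⧸ k), ∃ a : 𝓞 K,
      Ideal.Quotient.mk l a = q.1 ∧ Ideal.Quotient.mk k a = q.2 := by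
    rintro ⟨a, b⟩
    obtain ⟨a0, rfl⟩ := Ideal.Quotient.mk_surjective a
    obtain ⟨b0, rfl⟩ := Ideal.Quotient.mk_surjective b
    obtain ⟨c0, h1, h2⟩ := crt hcop a0 b0
    exact ⟨c0, Ideal.Quotient.eq.mpr h1, Ideal.Quotient.eq.mpr h2⟩
  choose lift hl1 hl2 using hex
  have hαex : ∀ x : K, ∃ a : 𝓞 K, x ∈ M →
      x - (a : K) * x₀ ∈ ((l * k : Ideal (𝓞 K)) : FI K) * M := by
    intro x
    by_cases h : x ∈ M
    · obtain ⟨a, -, ha⟩ := hx.gen x h
      exact ⟨a, fun _ => ha⟩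
    · exact ⟨0, fun h' => absurd h' h⟩
  choose α hα using hαex
  have hβex : ∀ y : K, ∃ a : 𝓞 K, y ∈ du K (((l * k : Ideal (𝓞 K)) : FI K) * M) →
      y - (a : K) * y₀ ∈ ((l * k : Ideal (𝓞 K)) : FI K) *
        du K (((l * k : Ideal (𝓞 K)) : FI K) * M) := by
    intro x
    by_cases h : x ∈ du K (((l * k : Ideal (𝓞 K)) : FI K) * M)
    · obtain ⟨a, -, ha⟩ := hy.gen x h
      exact ⟨a, fun _ => ha⟩
    · exact ⟨0, fun h' => absurd h' h⟩
  choose β hβ using hβex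
  -- the additive character
  let θ : (𝓞 K ⧸ l) × (𝓞 K ⧸ k) → ℂ := fun q => eps K ((lift q : K) * (x₀ * y₀))
  have hθ : ∀ a : 𝓞 K, θ (Ideal.Quotient.mk l a, Ideal.Quotient.mk k a) =
      eps K ((a : K) * (x₀ * y₀)) := by
    intro a
    let q : (𝓞 K ⧸ l) × (𝓞 K ⧸ k) := (Ideal.Quotient.mk l a, Ideal.Quotient.mk k a)
    change eps K ((lift q : K) * (x₀ * y₀)) = _
    have h1 : lift q - a ∈ l := Ideal.Quotient.eq.mp (hl1 q)
    have h2 : lift q - a ∈ k := Ideal.Quotient.eq.mp (hl2 q)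
    have h3 : lift q - a ∈ l * k := (mem_l_mul hcop _).mpr ⟨h1, h2⟩
    have h4 : ((lift q - a : 𝓞 K) : K) = (lift q : K) - (a : K) :=
      map_sub (algebraMap (𝓞 K) K) _ _
    have h5 : (lift q : K) * (x₀ * y₀) = (a : K) * (x₀ * y₀) +
        (((lift q - a : 𝓞 K) : K) * x₀) * y₀ := by
      rw [h4]; ring
    rw [h5, eps_add, eps_of_mem hL ((hx.iff _ _ le_rfl).mpr h3) hy.mem, mul_one]
  have hθmul : ∀ a b : 𝓞 K, (Ideal.Quotient.mk l a, Ideal.Quotient.mk k a) *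
      (Ideal.Quotient.mk l b, Ideal.Quotient.mk k b) =
      (Ideal.Quotient.mk l (a * b), Ideal.Quotient.mk k (a * b)) := by
    intro a b
    rw [Prod.mk_mul_mk, map_mul, map_mul]
  have hliftq : ∀ q : (𝓞 K ⧸ l) × (𝓞 K ⧸ k),
      (Ideal.Quotient.mk l (lift q), Ideal.Quotient.mk k (lift q)) = q :=
    fun q => Prod.ext (hl1 q) (hl2 q)
  have hAC : AC θ := by
    refine ⟨fun q q' => ?_, fun q => eps_norm _⟩
    have h1 : q + q' = (Ideal.Quotient.mk l (lift q + lift q'),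
        Ideal.Quotient.mk k (lift q + lift q')) := by
      conv_lhs => rw [← hliftq q, ← hliftq q']
      rw [Prod.mk_add_mk, map_add, map_add]
    rw [h1, hθ]
    have h2 : ((lift q + lift q' : 𝓞 K) : K) = (lift q : K) + (lift q' : K) :=
      map_add (algebraMap (𝓞 K) K) _ _
    rw [h2, add_mul, eps_add]
  have hgen : ∀ w : (𝓞 K ⧸ l) × (𝓞 K ⧸ k),
      (∀ r : (𝓞 K ⧸ l) × (𝓞 K ⧸ k), θ (r * w) = 1) → w = 0 := by
    intro w hw
    have h1 : lift w ∈ l * k := by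
      refine gen_w hf hM hx hy (lift w) fun r => ?_
      have h2 := hw (Ideal.Quotient.mk l r, Ideal.Quotient.mk k r)
      conv_lhs at h2 => rw [← hliftq w]
      rw [hθmul, hθ] at h2
      exact h2
    obtain ⟨h2, h3⟩ := (mem_l_mul hcop _).mp h1
    rw [← hliftq w, Ideal.Quotient.eq_zero_iff_mem.mpr h2, Ideal.Quotient.eq_zero_iff_mem.mpr h3]
    rfl
  have hACB : AC (fun b : 𝓞 K ⧸ k => θ (0, b)) := by
    refine ⟨fun b b' => ?_, fun b => hAC.norm _⟩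
    have h2 : ((0 : 𝓞 K ⧸ l), b + b') = ((0 : 𝓞 K ⧸ l), b) + ((0 : 𝓞 K ⧸ l), b') := by
      rw [Prod.mk_add_mk, add_zero]
    rw [h2]
    exact hAC.add _ _
  have hgenB : ∀ w : 𝓞 K ⧸ k, (∀ r : 𝓞 K ⧸ k, θ (0, r * w) = 1) → w = 0 := by
    intro w hw
    have h2 := hgen (0, w) fun q => by
      have h3 : q * ((0 : 𝓞 K ⧸ l), w) = (0, q.2 * w) := by
        rw [Prod.mul_def]
        simp
      rw [h3]
      exact hw q.2
    exact congrArg Prod.snd h2
  obtain ⟨τ, hτ1, hτ2⟩ := Pool.Agent.H29.THC.gauss η (fun b : 𝓞 K ⧸ k => θ (0, b)) hη.mc hACB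
    hη.prim hgenB
  -- the coefficients at l
  let c' : 𝓞 K ⧸ l → ℂ := fun q => c ((lift (q, 0) : K) * x₀)
  have hc' : ∀ x ∈ M, c x = c' (Ideal.Quotient.mk l (α x)) := by
    intro x hxM
    have h1 := hα x hxM
    have h2 : α x - lift (Ideal.Quotient.mk l (α x), 0) ∈ l :=
      Ideal.Quotient.eq.mp (hl1 (Ideal.Quotient.mk l (α x), 0)).symm
    have h3 : x = (lift (Ideal.Quotient.mk l (α x), 0) : K) * x₀ +
        ((((α x - lift (Ideal.Quotient.mk l (α x), 0) : 𝓞 K) : K) * x₀) +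
        (x - (α x : K) * x₀)) := by
      have h4 : ((α x - lift (Ideal.Quotient.mk l (α x), 0) : 𝓞 K) : K) =
        (α x : K) - (lift (Ideal.Quotient.mk l (α x), 0) : K) :=
        map_sub (algebraMap (𝓞 K) K) _ _
      rw [h4]; ring
    conv_lhs => rw [h3]
    refine hc2 _ (smul_mem_FI M _ hx.mem) _ (fadd K _ ?_ (mul_mono_FI hfl M h1))
    exact (hx.iff _ l hfl).mpr h2
  have hc'1 : ∀ q, ‖c' q‖ ≤ 1 := fun q => hc1 _ (smul_mem_FI M _ hx.mem)
  -- the Fourier transform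
  have hfte : ∀ y ∈ du K (((l * k : Ideal (𝓞 K)) : FI K) * M), ∀ b : 𝓞 K,
      y - (b : K) * y₀ ∈ ((l * k : Ideal (𝓞 K)) : FI K) *
        du K (((l * k : Ideal (𝓞 K)) : FI K) * M) →
      ft K X (fun x => c x * cq k η M x₀ x) y =
        ∑ a : 𝓞 K ⧸ l, ∑ a' : 𝓞 K ⧸ k, c' a * η a' *
          θ ((a, a') * (Ideal.Quotient.mk l b, Ideal.Quotient.mk k b)) := by
    intro y hyM b hb
    let Ψ : 𝓞 K ⧸ l → 𝓞 K ⧸ k → ℂ := fun a' b' =>
      c' a' * η b' * θ ((a', b') * (Ideal.Quotient.mk l b, Ideal.Quotient.mk k b))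
    have hterm : ∀ x ∈ X, (c x * cq k η M x₀ x) *
        cexp (2 * Real.pi * I * ((Algebra.trace ℚ K (x * y) : ℚ) : ℂ)) =
        Ψ (Ideal.Quotient.mk l (α x)) (Ideal.Quotient.mk k (α x)) := by
      intro x hxX
      have hxM := hX.1 x hxX
      have hax := hα x hxM
      simp only [Ψ]
      rw [hc' x hxM, cq_eq k η (gn_mono hx hfk) (α x) x (mul_mono_FI hfk M hax), hθmul, hθ]
      congr 1
      change eps K (x * y) = _
      have h1 : ((α x * b : 𝓞 K) : K) = (α x : K) * (b : K) :=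
        map_mul (algebraMap (𝓞 K) K) _ _
      have h2 : x * y = ((α x * b : 𝓞 K) : K) * (x₀ * y₀) + (x - (α x : K) * x₀) * y +
          ((α x : K) * x₀) * (y - (b : K) * y₀) := by
        rw [h1]; ring
      have h3 : y - (b : K) * y₀ ∈ du K M := by
        rw [← mul_du hf hM]
        exact hb
      rw [h2, eps_add, eps_add, eps_of_mem hL hax hyM,
        eps_of_mem hM (smul_mem_FI M _ hx.mem) h3, mul_one, mul_one]
    have hbot : k.map (Ideal.Quotient.mk k) = ⊥ := Ideal.map_quotient_self _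
    have huniv : ∀ x : 𝓞 K ⧸ k, ∃! r, r ∈ (Finset.univ : Finset (𝓞 K ⧸ k)) ∧
        x - r ∈ k.map (Ideal.Quotient.mk k) := by
      intro x
      refine ⟨x, ⟨Finset.mem_univ _, by rw [sub_self]; exact zero_mem _⟩, ?_⟩
      rintro r ⟨-, hr⟩
      rw [hbot, Ideal.mem_bot, sub_eq_zero] at hr
      exact hr.symm
    have hΨ : ∀ a b b', b - b' ∈ k.map (Ideal.Quotient.mk k) → Ψ a b = Ψ a b' := by
      intro a b b' hbb
      rw [hbot, Ideal.mem_bot, sub_eq_zero] at hbb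
      rw [hbb]
    unfold ft
    rw [Finset.sum_congr rfl hterm, sum_rep hcop le_rfl hx X hX Finset.univ huniv α
      (fun x hxM => hα x hxM) Ψ hΨ]
  -- the product
  let A : 𝓞 K ⧸ l → ℂ := fun b => ∑ a : 𝓞 K ⧸ l, c' a * θ (a * b, 0)
  have hprod : ∀ (b1 : 𝓞 K ⧸ l) (b2 : 𝓞 K ⧸ k),
      ∑ a : 𝓞 K ⧸ l, ∑ a' : 𝓞 K ⧸ k, c' a * η a' * θ ((a, a') * (b1, b2)) =
        (A b1 * τ) * (starRingEnd ℂ) (η b2) := by
    intro b1 b2
    have h1 : ∀ (a : 𝓞 K ⧸ l) (a' : 𝓞 K ⧸ k), c' a * η a' * θ ((a, a') * (b1, b2)) =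
        (c' a * θ (a * b1, 0)) * (η a' * θ (0, a' * b2)) := by
      intro a a'
      have h2 : ((a, a') : (𝓞 K ⧸ l) × (𝓞 K ⧸ k)) * (b1, b2) = (a * b1, 0) + (0, a' * b2) := by
        rw [Prod.mk_mul_mk, Prod.mk_add_mk, add_zero, zero_add]
      rw [h2, hAC.add]
      ring
    simp only [h1]
    have h3 : ∀ a : 𝓞 K ⧸ l, ∑ a' : 𝓞 K ⧸ k,
        (c' a * θ (a * b1, 0)) * (η a' * θ (0, a' * b2)) =
        (c' a * θ (a * b1, 0)) * ((starRingEnd ℂ) (η b2) * τ) := by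
      intro a
      rw [← Finset.mul_sum, hτ2 b2]
    simp only [h3]
    rw [← Finset.sum_mul]
    show A b1 * ((starRingEnd ℂ) (η b2) * τ) = _
    ring
  have hA : ∀ b, ‖A b‖ ≤ Nf K l := by
    intro b
    calc ‖A b‖ ≤ ∑ a : 𝓞 K ⧸ l, ‖c' a * θ (a * b, 0)‖ := norm_sum_le _ _
      _ ≤ ∑ _a : 𝓞 K ⧸ l, (1 : ℝ) := by
          refine Finset.sum_le_sum fun a _ => ?_
          rw [norm_mul, hAC.norm, mul_one]
          exact hc'1 a
      _ = Nf K l := by
          rw [Finset.sum_const, nsmul_eq_mul, mul_one, Finset.card_univ]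
          unfold Nf
          rw [Ideal.absNorm_apply, Submodule.cardQuot_apply, Nat.card_eq_fintype_card]
  have hτ3 : ‖τ‖ = Real.sqrt (Nf K k) := by
    have h1 : (Fintype.card (𝓞 K ⧸ k) : ℝ) = Nf K k := by
      unfold Nf
      rw [Ideal.absNorm_apply, Submodule.cardQuot_apply, Nat.card_eq_fintype_card]
    rw [← h1, ← hτ1, Real.sqrt_sq (norm_nonneg _)]
  refine ⟨fun y => A (Ideal.Quotient.mk l (β y)) * τ, ?_, ?_, ?_⟩
  · intro y _
    rw [norm_mul, hτ3]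
    exact mul_le_mul_of_nonneg_right (hA _) (Real.sqrt_nonneg _)
  · intro y hyM t ht
    have hle : (l : FI K) * du K (((l * k : Ideal (𝓞 K)) : FI K) * M) ≤
        du K (((l * k : Ideal (𝓞 K)) : FI K) * M) := by
      have h1 := mul_mono_FI (K := K) (I := l) (J := ⊤) le_top
        (du K (((l * k : Ideal (𝓞 K)) : FI K) * M))
      have h2 : ((⊤ : Ideal (𝓞 K)) : FI K) = 1 := FractionalIdeal.coeIdeal_top _
      rw [h2, one_mul] at h1
      exact h1
    have hyt : y + t ∈ du K (((l * k : Ideal (𝓞 K)) : FI K) * M) := fadd K _ hyM (hle ht)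
    have e1 := mul_mono_FI hfl _ (hβ y hyM)
    have e2 := mul_mono_FI hfl _ (hβ (y + t) hyt)
    have e3 : ((β (y + t) - β y : 𝓞 K) : K) * y₀ ∈
        (l : FI K) * du K (((l * k : Ideal (𝓞 K)) : FI K) * M) := by
      have h4 : ((β (y + t) - β y : 𝓞 K) : K) = (β (y + t) : K) - (β y : K) :=
        map_sub (algebraMap (𝓞 K) K) _ _
      have h5 : ((β (y + t) - β y : 𝓞 K) : K) * y₀ =
          ((y - (β y : K) * y₀) - ((y + t) - (β (y + t) : K) * y₀)) + t := by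
        rw [h4]; ring
      rw [h5]
      exact fadd K _ (fsub K _ e1 e2) ht
    have e4 := (hy.iff _ l hfl).mp e3
    have e5 : Ideal.Quotient.mk l (β (y + t)) = Ideal.Quotient.mk l (β y) :=
      Ideal.Quotient.eq.mpr e4
    show A (Ideal.Quotient.mk l (β (y + t))) * τ = A (Ideal.Quotient.mk l (β y)) * τ
    rw [e5]
  · intro y hyM
    rw [hfte y hyM (β y) (hβ y hyM), hprod,
      cq_eq k η (gn_mono hy hfk) (β y) y (mul_mono_FI hfk _ (hβ y hyM))]

end Pool.Agent.H97.SWX.SH
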